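import Mathlib

/-!
# The group algebra of a finite abelian group: Fourier inversion and the exponential
-/

set_option autoImplicit false

namespace Pool.Agent.R409.RJ

open Filter Topology

variable {G : Type} [CommGroup G] [Finite G]

/-- evaluation at a character -/
noncomputable def ev (χ : G →* ℂˣ) : MonoidAlgebra ℂ G →ₐ[ℂ] ℂ :=
  MonoidAlgebra.lift ℂ ℂ G ((Units.coeHom ℂ).comp χ)

instance finite_char : Finite (G →* ℂˣ) := by
  have : NeZero (Monoid.exponent G) := ⟨Monoid.exponent_ne_zero_of_finite⟩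
  obtain ⟨e⟩ := CommGroup.monoidHom_mulEquiv_of_hasEnoughRootsOfUnity G ℂ
  exact Finite.of_equiv G e.symm.toEquiv

theorem ev_apply [Fintype G] (χ : G →* ℂˣ) (x : MonoidAlgebra ℂ G) :
    ev χ x = ∑ h : G, x.coeff h * ((χ h : ℂˣ) : ℂ) := by
  unfold ev
  rw [MonoidAlgebra.lift_apply, Finsupp.sum_fintype _ _ (fun i => by simp)]
  rfl

theorem orth [Fintype (G →* ℂˣ)] (a : G) [Decidable (a = 1)] :
    ∑ χ : G →* ℂˣ, ((χ a : ℂˣ) : ℂ) = if a = 1 then (Nat.card G : ℂ) else 0 := by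
  have hexp : NeZero (Monoid.exponent G) := ⟨Monoid.exponent_ne_zero_of_finite⟩
  split_ifs with h
  · subst h
    have h1 := CommGroup.card_monoidHom_of_hasEnoughRootsOfUnity G ℂ
    simp only [map_one, Units.val_one, Finset.sum_const, Finset.card_univ, nsmul_eq_mul, mul_one]
    rw [← h1, Nat.card_eq_fintype_card]
  · obtain ⟨ψ, hψ⟩ := CommGroup.exists_apply_ne_one_of_hasEnoughRootsOfUnity G ℂ h
    have h1 : ∑ χ : G →* ℂˣ, ((χ a : ℂˣ) : ℂ) = ((ψ a : ℂˣ) : ℂ) * ∑ χ : G →* ℂˣ, ((χ a : ℂˣ) : ℂ) := by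
      rw [Finset.mul_sum, ← Equiv.sum_comp (Equiv.mulLeft ψ)]
      exact Finset.sum_congr rfl fun χ _ => by simp
    have h2 : (((ψ a : ℂˣ) : ℂ) - 1) * ∑ χ : G →* ℂˣ, ((χ a : ℂˣ) : ℂ) = 0 := by
      linear_combination -h1
    refine (mul_eq_zero.1 h2).resolve_left fun h3 => hψ ?_
    exact Units.ext (by rw [sub_eq_zero.1 h3, Units.val_one])

/-- Fourier inversion -/
theorem coeff_eq [Fintype (G →* ℂˣ)] (x : MonoidAlgebra ℂ G) (g : G) :
    x.coeff g = (Nat.card G : ℂ)⁻¹ * ∑ χ : G →* ℂˣ, ((χ g : ℂˣ) : ℂ)⁻¹ * ev χ x := by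
  classical
  letI : Fintype G := Fintype.ofFinite G
  have hc : (Nat.card G : ℂ) ≠ 0 := by exact_mod_cast Nat.card_pos.ne'
  have h1 : ∑ χ : G →* ℂˣ, ((χ g : ℂˣ) : ℂ)⁻¹ * ev χ x =
      ∑ h : G, x.coeff h * ∑ χ : G →* ℂˣ, ((χ (g⁻¹ * h) : ℂˣ) : ℂ) := by
    simp only [ev_apply, Finset.mul_sum]
    rw [Finset.sum_comm]
    refine Finset.sum_congr rfl fun h _ => Finset.sum_congr rfl fun χ _ => ?_
    rw [map_mul, map_inv, Units.val_mul, Units.val_inv_eq_inv_val]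
    ring
  rw [h1]
  have h2 : ∀ h : G, x.coeff h * ∑ χ : G →* ℂˣ, ((χ (g⁻¹ * h) : ℂˣ) : ℂ) =
      if h = g then x.coeff g * Nat.card G else 0 := by
    intro h
    rw [orth]
    by_cases hg : h = g
    · subst hg
      rw [if_pos (inv_mul_cancel h), if_pos rfl]
    · rw [if_neg (fun h3 => hg (inv_mul_eq_one.1 h3).symm), if_neg hg, mul_zero]
  simp only [h2, Finset.sum_ite_eq', Finset.mem_univ, if_true]
  field_simp

/-- The exponential in the group algebra: the coefficients of `∑ x^n / n!`. -/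
noncomputable def gexp (x : MonoidAlgebra ℂ G) : MonoidAlgebra ℂ G :=
  MonoidAlgebra.ofCoeff (Finsupp.equivFunOnFinite.symm fun g => ∑' n : ℕ, (x ^ n).coeff g / (n.factorial : ℂ))

theorem ev_gexp (χ : G →* ℂˣ) (x : MonoidAlgebra ℂ G) : ev χ (gexp x) = Complex.exp (ev χ x) := by
  classical
  letI : Fintype G := Fintype.ofFinite G
  letI : Fintype (G →* ℂˣ) := Fintype.ofFinite _
  have hc : (Nat.card G : ℂ) ≠ 0 := by exact_mod_cast Nat.card_pos.ne'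
  have h1 : ∀ g : G, (gexp x).coeff g =
      (Nat.card G : ℂ)⁻¹ * ∑ ψ : G →* ℂˣ, ((ψ g : ℂˣ) : ℂ)⁻¹ * Complex.exp (ev ψ x) := by
    intro g
    change ∑' n : ℕ, (x ^ n).coeff g / (n.factorial : ℂ) = _
    refine HasSum.tsum_eq ?_
    have h2 : (fun n : ℕ => (x ^ n).coeff g / (n.factorial : ℂ)) = fun n : ℕ =>
        (Nat.card G : ℂ)⁻¹ * ∑ ψ : G →* ℂˣ, ((ψ g : ℂˣ) : ℂ)⁻¹ * (ev ψ x ^ n / (n.factorial : ℂ)) := by
      funext n
      rw [coeff_eq]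
      simp only [map_pow]
      rw [mul_div_assoc, Finset.sum_div]
      congr 1
      exact Finset.sum_congr rfl fun ψ _ => by ring
    rw [h2]
    refine HasSum.mul_left _ (hasSum_sum fun ψ _ => HasSum.mul_left _ ?_)
    rw [Complex.exp_eq_exp_ℂ]
    exact NormedSpace.expSeries_div_hasSum_exp (ev ψ x)
  rw [ev_apply]
  simp only [h1]
  have h3 : ∑ h : G, (Nat.card G : ℂ)⁻¹ * (∑ ψ : G →* ℂˣ, ((ψ h : ℂˣ) : ℂ)⁻¹ * Complex.exp (ev ψ x)) *
      ((χ h : ℂˣ) : ℂ) = (Nat.card G : ℂ)⁻¹ * ∑ ψ : G →* ℂˣ, Complex.exp (ev ψ x) *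
        ∑ h : G, ((((Units.coeHom ℂ).comp (χ * ψ⁻¹)) h : ℂ)) := by
    simp only [Finset.mul_sum, Finset.sum_mul]
    rw [Finset.sum_comm]
    refine Finset.sum_congr rfl fun ψ _ => Finset.sum_congr rfl fun h _ => ?_
    have e : (((Units.coeHom ℂ).comp (χ * ψ⁻¹)) h : ℂ) = ((χ h : ℂˣ) : ℂ) * ((ψ h : ℂˣ) : ℂ)⁻¹ := by
      change (((χ h) * (ψ h)⁻¹ : ℂˣ) : ℂ) = _
      rw [Units.val_mul, Units.val_inv_eq_inv_val]
    rw [e]
    ring
  rw [h3]
  have h4 : ∀ ψ : G →* ℂˣ, Complex.exp (ev ψ x) * ∑ h : G, ((((Units.coeHom ℂ).comp (χ * ψ⁻¹)) h : ℂ)) =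
      if ψ = χ then Complex.exp (ev χ x) * Nat.card G else 0 := by
    intro ψ
    rw [sum_hom_units]
    by_cases h : ψ = χ
    · subst h
      have h5 : (Units.coeHom ℂ).comp (ψ * ψ⁻¹) = 1 := by
        ext g
        change (((ψ g) * (ψ g)⁻¹ : ℂˣ) : ℂ) = 1
        rw [mul_inv_cancel, Units.val_one]
      rw [if_pos h5, if_pos rfl, Nat.card_eq_fintype_card]
    · rw [if_neg, if_neg h]
      · simp
      · intro h5
        apply h
        ext g
        have h6 := DFunLike.congr_fun h5 g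
        have h7 : (((χ g) * (ψ g)⁻¹ : ℂˣ) : ℂ) = 1 := h6
        have h8 : (χ g) * (ψ g)⁻¹ = 1 := Units.ext h7
        rw [mul_inv_eq_one.1 h8]
  simp only [h4, Finset.sum_ite_eq', Finset.mem_univ, if_true]
  field_simp

theorem tendsto_coeff {y : ℝ → MonoidAlgebra ℂ G} {θ : MonoidAlgebra ℂ G} {l : Filter ℝ}
    (h : ∀ χ : G →* ℂˣ, Tendsto (fun X => ev χ (y X)) l (𝓝 (ev χ θ))) (g : G) :
    Tendsto (fun X => (y X).coeff g) l (𝓝 (θ.coeff g)) := by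
  letI : Fintype (G →* ℂˣ) := Fintype.ofFinite _
  rw [coeff_eq θ g]
  have h1 : (fun X => (y X).coeff g) = fun X =>
      (Nat.card G : ℂ)⁻¹ * ∑ χ : G →* ℂˣ, ((χ g : ℂˣ) : ℂ)⁻¹ * ev χ (y X) := by
    funext X
    exact coeff_eq (y X) g
  rw [h1]
  exact (tendsto_finsetSum _ fun χ _ => (h χ).const_mul _).const_mul _

end Pool.Agent.R409.RJ
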