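import Pool.Agent.R409.RJ.Alg

/-!
# The group algebra of a finite abelian group: elements with prescribed values
-/

set_option autoImplicit false

namespace Pool.Agent.R409.RJ

open Filter Topology

variable {G : Type} [CommGroup G] [Finite G]

theorem ev_inj {x y : MonoidAlgebra ℂ G} (h : ∀ χ : G →* ℂˣ, ev χ x = ev χ y) : x = y := by
  letI : Fintype (G →* ℂˣ) := Fintype.ofFinite _
  refine MonoidAlgebra.ext (Finsupp.ext fun g => ?_)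
  rw [coeff_eq x g, coeff_eq y g]
  simp only [h]

theorem exists_ev (f : (G →* ℂˣ) → ℂ) : ∃ x : MonoidAlgebra ℂ G, ∀ χ : G →* ℂˣ, ev χ x = f χ := by
  classical
  letI : Fintype G := Fintype.ofFinite G
  letI : Fintype (G →* ℂˣ) := Fintype.ofFinite _
  have hc : (Nat.card G : ℂ) ≠ 0 := by exact_mod_cast Nat.card_pos.ne'
  refine ⟨MonoidAlgebra.ofCoeff (Finsupp.equivFunOnFinite.symm fun g =>
    (Nat.card G : ℂ)⁻¹ * ∑ ψ : G →* ℂˣ, ((ψ g : ℂˣ) : ℂ)⁻¹ * f ψ), fun χ => ?_⟩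
  rw [ev_apply]
  have h3 : ∑ h : G, (Nat.card G : ℂ)⁻¹ * (∑ ψ : G →* ℂˣ, ((ψ h : ℂˣ) : ℂ)⁻¹ * f ψ) *
      ((χ h : ℂˣ) : ℂ) = (Nat.card G : ℂ)⁻¹ * ∑ ψ : G →* ℂˣ, f ψ *
        ∑ h : G, ((((Units.coeHom ℂ).comp (χ * ψ⁻¹)) h : ℂ)) := by
    simp only [Finset.mul_sum, Finset.sum_mul]
    rw [Finset.sum_comm]
    refine Finset.sum_congr rfl fun ψ _ => Finset.sum_congr rfl fun h _ => ?_
    have e : (((Units.coeHom ℂ).comp (χ * ψ⁻¹)) h : ℂ) = ((χ h : ℂˣ) : ℂ) * ((ψ h : ℂˣ) : ℂ)⁻¹ := by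
      change (((χ h) * (ψ h)⁻¹ : ℂˣ) : ℂ) = _
      rw [Units.val_mul, Units.val_inv_eq_inv_val]
    rw [e]
    ring
  change ∑ h : G, (Nat.card G : ℂ)⁻¹ * (∑ ψ : G →* ℂˣ, ((ψ h : ℂˣ) : ℂ)⁻¹ * f ψ) *
      ((χ h : ℂˣ) : ℂ) = f χ
  rw [h3]
  have h4 : ∀ ψ : G →* ℂˣ, f ψ * ∑ h : G, ((((Units.coeHom ℂ).comp (χ * ψ⁻¹)) h : ℂ)) =
      if ψ = χ then f χ * Nat.card G else 0 := by
    intro ψ
    rw [sum_hom_units]
    by_cases h : ψ = χ
    · subst h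
      have h5 : (Units.coeHom ℂ).comp (ψ * ψ⁻¹) = 1 := by
        ext g
        change (((ψ g) * (ψ g)⁻¹ : ℂˣ) : ℂ) = 1
        rw [mul_inv_cancel, Units.val_one]
      rw [if_pos h5, if_pos rfl, Nat.card_eq_fintype_card]
    · rw [if_neg, if_neg h]
      · simp
      · intro h5
        apply h
        ext g
        have h6 := DFunLike.congr_fun h5 g
        have h7 : (((χ g) * (ψ g)⁻¹ : ℂˣ) : ℂ) = 1 := h6
        have h8 : (χ g) * (ψ g)⁻¹ = 1 := Units.ext h7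
        rw [mul_inv_eq_one.1 h8]
  simp only [h4, Finset.sum_ite_eq', Finset.mem_univ, if_true]
  field_simp

end Pool.Agent.R409.RJ
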