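import Pool.Agent.R409.RC.Seq

/-!
# Derivatives at a zero, and the law with a prescribed exponent
-/

set_option autoImplicit false

namespace Pool.Agent.R409.RJ

open Filter Topology Asymptotics
open Pool.Agent.R409.RC

/-- the `k`-th derivative of `z^k g` at `0` -/
theorem itd (k : ℕ) : ∀ (f g : ℂ → ℂ), AnalyticAt ℂ g 0 → (∀ᶠ z in 𝓝 (0 : ℂ), f z = z ^ k * g z) →
    iteratedDeriv k f 0 = k.factorial * g 0 := by
  induction k with
  | zero =>
    intro f g _ h
    rw [iteratedDeriv_zero]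
    simpa using h.self_of_nhds
  | succ k ih =>
    intro f g hg h
    rw [iteratedDeriv_succ']
    have h1 : ∀ᶠ z in 𝓝 (0 : ℂ), deriv f z = z ^ k * ((k + 1) * g z + z * deriv g z) := by
      have h2 : f =ᶠ[𝓝 0] fun z => z ^ (k + 1) * g z := h
      filter_upwards [h2.deriv, hg.eventually_analyticAt] with z hz hgz
      rw [hz]
      have h3 : HasDerivAt (fun z : ℂ => z ^ (k + 1) * g z)
          (((k + 1 : ℕ) : ℂ) * z ^ (k + 1 - 1) * g z + z ^ (k + 1) * deriv g z) z :=
        (hasDerivAt_pow (k + 1) z).mul hgz.differentiableAt.hasDerivAt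
      rw [h3.deriv]
      push_cast
      ring
    have h4 : AnalyticAt ℂ (fun z => ((k : ℂ) + 1) * g z + z * deriv g z) 0 :=
      (analyticAt_const.mul hg).add (analyticAt_id.mul hg.deriv)
    rw [ih (deriv f) (fun z => ((k : ℂ) + 1) * g z + z * deriv g z) h4 h1, Nat.factorial_succ]
    push_cast
    ring

/-- the `r`-th derivative in terms of the leading coefficient -/
theorem lim_val {F E : ℂ → ℂ} (hF : AnalyticAt ℂ F 0) (hE : AnalyticAt ℂ E 0) {m : ℤ}
    (hm : meromorphicOrderAt F 0 = m) {r : ℕ} (hr : (r : ℕ∞) ≤ analyticOrderAt F 0) :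
    (r : ℤ) ≤ m ∧ iteratedDeriv r (fun s => F s * E s) 0 =
      r.factorial * (if m = r then meromorphicTrailingCoeffAt F 0 else 0) * E 0 := by
  have hrm : (r : ℤ) ≤ m := by
    rw [hF.meromorphicOrderAt_eq] at hm
    cases h : analyticOrderAt F 0 with
    | top => rw [h] at hm; exact absurd hm (by simp)
    | coe n =>
      rw [h] at hm hr
      rw [ENat.map_natCast] at hm
      have h1 : ((n : ℤ) : WithTop ℤ) = m := hm
      have h2 : (n : ℤ) = m := by exact_mod_cast h1
      have h3 : r ≤ n := by exact_mod_cast hr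
      omega
  refine ⟨hrm, ?_⟩
  obtain ⟨g, hg, hgF⟩ := (natCast_le_analyticOrderAt hF).1 hr
  have h1 : ∀ᶠ z in 𝓝 (0 : ℂ), F z * E z = z ^ r * (g z * E z) := by
    filter_upwards [hgF] with z hz
    rw [hz, sub_zero, smul_eq_mul]
    ring
  rw [itd r _ (fun z => g z * E z) (hg.mul hE) h1, ← mul_assoc]
  congr 2
  -- the value of g
  have h2 : Tendsto (fun s : ℂ => s ^ (-m) * F s) (𝓝[≠] 0) (𝓝 (meromorphicTrailingCoeffAt F 0)) := by
    have h3 := hF.meromorphicAt.tendsto_nhds_meromorphicTrailingCoeffAt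
    rw [hm, WithTop.untop₀_coe] at h3
    refine h3.congr fun s => ?_
    simp
  have h3 : Tendsto (fun s : ℂ => s ^ (m - r) * (s ^ (-m) * F s)) (𝓝[≠] 0) (𝓝 (g 0)) := by
    refine (hg.continuousAt.tendsto.mono_left nhdsWithin_le_nhds).congr' ?_
    filter_upwards [self_mem_nhdsWithin, hgF.filter_mono nhdsWithin_le_nhds] with s hs hs'
    have hs0 : s ≠ 0 := hs
    rw [hs', sub_zero, smul_eq_mul, ← mul_assoc, ← mul_assoc, ← zpow_natCast, ← zpow_add₀ hs0,
      ← zpow_add₀ hs0]
    have : m - (r : ℤ) + -m + r = 0 := by ring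
    rw [this, zpow_zero, one_mul]
  split_ifs with h
  · subst h
    simp only [sub_self, zpow_zero, one_mul] at h3
    exact tendsto_nhds_unique h3 h2
  · have h4 : Tendsto (fun s : ℂ => s ^ (m - r)) (𝓝[≠] 0) (𝓝 0) := by
      obtain ⟨n, hn⟩ := Int.eq_ofNat_of_zero_le (show 0 ≤ m - r by omega)
      have hn0 : n ≠ 0 := by
        intro h0
        rw [h0] at hn
        apply h
        push_cast at hn
        linarith
      rw [hn]
      have h5 : Tendsto (fun s : ℂ => s ^ n) (𝓝 0) (𝓝 (0 ^ n)) := (continuous_pow n).tendsto 0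
      rw [zero_pow hn0] at h5
      refine (h5.mono_left nhdsWithin_le_nhds).congr fun s => ?_
      exact (zpow_natCast s n).symm
    have h5 := h4.mul h2
    rw [zero_mul] at h5
    exact tendsto_nhds_unique h3 h5

variable {V : ℝ → ℂ} {m : ℤ} {r₀ Λ : ℂ}

/-- the exponential of the law with its error -/
theorem law_split (h : Law V m r₀ Λ) : ∃ e : ℝ → ℂ, e =O[atTop] (fun X : ℝ => X⁻¹) ∧
    ∀ X : ℝ, 0 < X → Complex.exp (V X) * (X : ℂ) ^ m =
      Complex.exp r₀ * Complex.exp (m * Λ) * Complex.exp (e X) := by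
  obtain ⟨C, T₀, hC, hT₀, hT⟩ := h
  refine ⟨fun X => V X - (r₀ - m * (Real.log X - Λ)), ?_, fun X hX => ?_⟩
  · refine IsBigO.of_bound C ?_
    filter_upwards [eventually_ge_atTop T₀] with X hX
    have hX0 : 0 < X := by linarith
    rw [norm_inv, Real.norm_eq_abs, abs_of_pos hX0, ← div_eq_mul_inv]
    exact hT X hX
  · have h3 : (X : ℂ) ^ m = Complex.exp (m * Real.log X) := by
      rw [Complex.exp_int_mul, ← Complex.ofReal_exp, Real.exp_log hX]
    rw [h3, ← Complex.exp_add, ← Complex.exp_add, ← Complex.exp_add]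
    congr 1
    ring

theorem exp_sub_one {e : ℝ → ℂ} (he : e =O[atTop] (fun X : ℝ => X⁻¹)) :
    (fun X => Complex.exp (e X) - 1) =O[atTop] (fun X : ℝ => X⁻¹) := by
  have h0 : Tendsto e atTop (𝓝 0) := he.trans_tendsto tendsto_inv_atTop_zero
  refine IsBigO.trans ?_ he
  refine IsBigO.of_bound 2 ?_
  have h1 : ∀ᶠ X in atTop, ‖e X‖ < 1 := by
    have := h0.norm
    rw [norm_zero] at this
    exact this.eventually (gt_mem_nhds one_pos)
  filter_upwards [h1] with X hX
  exact Complex.norm_exp_sub_one_le hX.le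

/-- **the law with the exponent `r ≤ m`** -/
theorem law_rate (h : Law V m r₀ Λ) {r : ℕ} (hr : (r : ℤ) ≤ m) :
    (fun X : ℝ => Complex.exp (-(r * Λ)) * (X : ℂ) ^ r * Complex.exp (V X) -
      (if m = r then Complex.exp r₀ else 0)) =O[atTop] (fun X : ℝ => X⁻¹) := by
  obtain ⟨e, he, h1⟩ := law_split h
  split_ifs with hm
  · subst hm
    have h2 : (fun X : ℝ => Complex.exp r₀ * (Complex.exp (e X) - 1)) =O[atTop] (fun X : ℝ => X⁻¹) :=
      (exp_sub_one he).const_mul_left _
    refine h2.congr' ?_ EventuallyEq.rfl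
    filter_upwards [eventually_gt_atTop 0] with X hX
    have h3 := h1 X hX
    rw [zpow_natCast] at h3
    have h4 : Complex.exp (-(r * Λ)) * (X : ℂ) ^ r * Complex.exp (V X) =
        Complex.exp (-(r * Λ)) * (Complex.exp (V X) * (X : ℂ) ^ r) := by ring
    rw [h4, h3]
    have h5 : Complex.exp (-(r * Λ)) * Complex.exp ((r : ℤ) * Λ) = 1 := by
      rw [← Complex.exp_add]
      push_cast
      rw [neg_add_cancel, Complex.exp_zero]
    linear_combination (-(Complex.exp r₀ * Complex.exp (e X))) * h5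
  · obtain ⟨n, hn⟩ := Int.eq_ofNat_of_zero_le (show 0 ≤ m - r by omega)
    have hn0 : 1 ≤ n := by
      rcases Nat.eq_zero_or_pos n with h0 | h0
      · exfalso
        rw [h0] at hn
        apply hm
        push_cast at hn
        linarith
      · exact h0
    have h0 : Tendsto e atTop (𝓝 0) := he.trans_tendsto tendsto_inv_atTop_zero
    have h2 : Tendsto (fun X : ℝ => Complex.exp (-(r * Λ)) * (Complex.exp r₀ * Complex.exp (m * Λ) *
        Complex.exp (e X))) atTop (𝓝 (Complex.exp (-(r * Λ)) * (Complex.exp r₀ *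
          Complex.exp (m * Λ) * Complex.exp 0))) :=
      (((Complex.continuous_exp.tendsto 0).comp h0).const_mul _).const_mul _
    have h3 : (fun X : ℝ => ((X : ℂ) ^ n)⁻¹) =O[atTop] (fun X : ℝ => X⁻¹) := by
      refine IsBigO.of_bound 1 ?_
      filter_upwards [eventually_ge_atTop 1] with X hX
      rw [norm_inv, norm_pow, Complex.norm_real, norm_inv, one_mul]
      refine inv_anti₀ (by
        rw [Real.norm_eq_abs, abs_of_pos (by linarith)]
        linarith) ?_
      rw [Real.norm_eq_abs, abs_of_pos (by linarith)]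
      exact le_self_pow₀ hX (by omega)
    have h4 := (h2.isBigO_one ℝ).mul h3
    simp only [one_mul] at h4
    refine h4.congr' ?_ EventuallyEq.rfl
    filter_upwards [eventually_gt_atTop 0] with X hX
    have hX' : (X : ℂ) ≠ 0 := by exact_mod_cast hX.ne'
    have h5 := h1 X hX
    have h6 : m = n + r := by
      have : m - r = n := hn
      linarith
    rw [← h5, sub_zero]
    have h7 : (X : ℂ) ^ m = (X : ℂ) ^ n * (X : ℂ) ^ r := by
      rw [h6, zpow_add₀ hX', zpow_natCast, zpow_natCast]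
    rw [h7]
    have h8 : (X : ℂ) ^ n ≠ 0 := pow_ne_zero _ hX'
    field_simp

/-- **the exponent from boundedness along one sequence** -/
theorem law_bdd (h : Law V m r₀ Λ) {r : ℕ} {x : ℕ → ℝ} (hx : Tendsto x atTop atTop) {B : ℝ}
    (hB : ∀ᶠ n in atTop, ‖(x n : ℂ) ^ r * Complex.exp (V (x n))‖ ≤ B) : (r : ℤ) ≤ m := by
  by_contra hlt
  push Not at hlt
  obtain ⟨n, hn⟩ := Int.eq_ofNat_of_zero_le (show 0 ≤ r - m by omega)
  have hn0 : n ≠ 0 := by
    intro h0
    rw [h0] at hn
    push_cast at hn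
    omega
  have h1 := (h.exp_form).norm.comp hx
  have hc : 0 < ‖Complex.exp r₀ * Complex.exp (m * Λ)‖ :=
    norm_pos_iff.2 (mul_ne_zero (Complex.exp_ne_zero _) (Complex.exp_ne_zero _))
  have h2 : Tendsto (fun k => x k ^ n) atTop atTop := (tendsto_pow_atTop hn0).comp hx
  have h3 : Tendsto (fun k => ‖Complex.exp (V (x k)) * (x k : ℂ) ^ m‖ * x k ^ n) atTop atTop :=
    h1.pos_mul_atTop hc h2
  have h4 : ∀ᶠ k in atTop, B < ‖Complex.exp (V (x k)) * (x k : ℂ) ^ m‖ * x k ^ n :=
    h3.eventually (eventually_gt_atTop B)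
  have h5 : ∀ᶠ k in atTop, 0 < x k := hx.eventually (eventually_gt_atTop 0)
  obtain ⟨k, hk1, hk2, hk3⟩ := (hB.and (h4.and h5)).exists
  refine absurd hk1 (not_le.2 ?_)
  refine lt_of_lt_of_eq hk2 ?_
  have hX' : (x k : ℂ) ≠ 0 := by exact_mod_cast hk3.ne'
  have h6 : (x k : ℂ) ^ r = (x k : ℂ) ^ m * (x k : ℂ) ^ n := by
    have h7 : (r : ℤ) = m + n := by
      have : (r : ℤ) - m = n := hn
      linarith
    rw [← zpow_natCast, h7, zpow_add₀ hX', zpow_natCast]
  rw [h6, norm_mul, norm_mul, norm_mul, norm_pow, Complex.norm_real, Real.norm_eq_abs,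
    abs_of_pos hk3]
  ring

end Pool.Agent.R409.RJ
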