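import Pool.Agent.R409.RJ.Alg2
import Pool.Agent.W655.PG.Desc

/-!
# Rational elements of the group algebra
-/

set_option autoImplicit false

namespace Pool.Agent.R409.RJ

variable {G : Type} [CommGroup G] [Finite G]

/-- the conjugate character -/
noncomputable def conj (τ : ℂ ≃+* ℂ) (ψ : G →* ℂˣ) : G →* ℂˣ :=
  (Units.map ((τ : ℂ →+* ℂ) : ℂ →* ℂ)).comp ψ

omit [Finite G] in
theorem conj_apply (τ : ℂ ≃+* ℂ) (ψ : G →* ℂˣ) (g : G) :
    ((conj τ ψ g : ℂˣ) : ℂ) = τ ((ψ g : ℂˣ) : ℂ) := rfl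

omit [Finite G] in
theorem conj_symm (τ : ℂ ≃+* ℂ) (ψ : G →* ℂˣ) : conj τ (conj τ.symm ψ) = ψ := by
  ext g
  rw [conj_apply, conj_apply, RingEquiv.apply_symm_apply]

omit [Finite G] in
theorem symm_conj (τ : ℂ ≃+* ℂ) (ψ : G →* ℂˣ) : conj τ.symm (conj τ ψ) = ψ := by
  ext g
  rw [conj_apply, conj_apply, RingEquiv.symm_apply_apply]

/-- the conjugation as a permutation of the characters -/
noncomputable def conjEquiv (τ : ℂ ≃+* ℂ) : (G →* ℂˣ) ≃ (G →* ℂˣ) where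
  toFun := conj τ
  invFun := conj τ.symm
  left_inv := symm_conj τ
  right_inv := conj_symm τ

/-- rational coefficients and Galois equivariance of the values -/
theorem rational_iff (x : MonoidAlgebra ℂ G) :
    (∀ g, ∃ q : ℚ, x.coeff g = q) ↔
      ∀ (τ : ℂ ≃+* ℂ) (ψ : G →* ℂˣ), τ (ev ψ x) = ev (conj τ ψ) x := by
  letI : Fintype G := Fintype.ofFinite G
  letI : Fintype (G →* ℂˣ) := Fintype.ofFinite _
  constructor
  · intro h τ ψ
    rw [ev_apply, ev_apply, map_sum]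
    refine Finset.sum_congr rfl fun g _ => ?_
    obtain ⟨q, hq⟩ := h g
    rw [map_mul, hq, map_ratCast, conj_apply]
  · intro h g
    have h1 : ∀ τ : ℂ ≃+* ℂ, τ (x.coeff g) = x.coeff g := by
      intro τ
      rw [coeff_eq x g, map_mul, map_inv₀, map_natCast, map_sum]
      congr 1
      refine Eq.trans ?_ (Equiv.sum_comp (conjEquiv τ)
        (fun ψ : G →* ℂˣ => ((ψ g : ℂˣ) : ℂ)⁻¹ * ev ψ x))
      refine Finset.sum_congr rfl fun ψ _ => ?_
      rw [map_mul, map_inv₀, h τ ψ]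
      rfl
    obtain ⟨q, hq⟩ := Pool.Agent.W655.PG.rat_of_fixed h1
    exact ⟨q, hq.symm⟩

end Pool.Agent.R409.RJ
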